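import Pool.Agent.H23.GcolLower

set_option autoImplicit false

namespace Pool.Agent.Results.MP_7edec4_co.Bounded

open Pool.Agent.H23.Gcol

theorem result (k : ℕ → ℕ) (hk : ∀ l, 1 ≤ l → 1 ≤ k l ∧ k l ≤ l) :
    HasP k ↔ ∃ K : ℕ, ∀ l, 1 ≤ l → k l ≤ K :=
  ⟨bdd_of_hasP (fun l hl => (hk l hl).2), fun ⟨_, hK⟩ => hasP_of_bdd hK⟩

end Pool.Agent.Results.MP_7edec4_co.Bounded
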